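import Pool.Agent.Helper6_Eng.AllSl
import Pool.Agent.Helper6_Eng.AllSp
import Pool.Agent.Helper13_Eng2.AllSu
import Pool.Agent.Helper99_Eng3.OmFinal

/-!
# The exponent of a finite classical group divides its Engel period

For every finite simple classical group `G` other than the groups `PSL(2,q)`, the exponent of `G`
divides the least positive `d` such that `G` satisfies `[x,_r y] = [x,_{r+d} y]` for some `r`.
The groups are: `PSL(n,F)`, `n ≥ 3`; `PSU(n,K)`, `n ≥ 3`, except `PSU(3,2)`; `PSp(2n,F)`, `n ≥ 2`;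
`PΩ(V,Q)`, `dim V ≥ 7`.  (In dimension at most `6` the simple orthogonal groups are isomorphic to
groups of the other families; an orthogonal group of odd dimension in characteristic `2` is
isomorphic to a symplectic group.)
-/

set_option autoImplicit false

namespace Pool.Agent.Results.MP_da8eb3_al.ClassicalGroups

open Pool.Agent.Eng.Orth

/-- `PSp(2n,F)`: the symplectic group of `2n × 2n` matrices modulo its center. -/
def PSp (n : ℕ) (F : Type) [Field F] : Type :=
  ↥(Matrix.symplecticGroup (Fin n) F) ⧸ Subgroup.center ↥(Matrix.symplecticGroup (Fin n) F)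

instance (n : ℕ) (F : Type) [Field F] : Group (PSp n F) :=
  QuotientGroup.Quotient.group (Subgroup.center ↥(Matrix.symplecticGroup (Fin n) F))

/-- `PSU(n,K)`: the special unitary group of `n × n` matrices modulo its center. -/
def PSU (n : ℕ) (K : Type) [Field K] [StarRing K] : Type :=
  ↥(Matrix.specialUnitaryGroup (Fin n) K) ⧸
    Subgroup.center ↥(Matrix.specialUnitaryGroup (Fin n) K)

instance (n : ℕ) (K : Type) [Field K] [StarRing K] : Group (PSU n K) :=
  QuotientGroup.Quotient.group (Subgroup.center ↥(Matrix.specialUnitaryGroup (Fin n) K))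

/-- `G` is isomorphic to `PSL(n,F)` for a finite field `F` and some `n ≥ 3`. -/
def IsLinear (G : Type) [Group G] : Prop :=
  ∃ (F : Type) (_ : Field F) (_ : Finite F) (n : ℕ), 3 ≤ n ∧
    Nonempty (G ≃* Matrix.ProjectiveSpecialLinearGroup (Fin n) F)

/-- `G` is isomorphic to `PSp(2n,F)` for a finite field `F` and some `n ≥ 2`. -/
def IsSymplectic (G : Type) [Group G] : Prop :=
  ∃ (F : Type) (_ : Field F) (_ : Finite F) (n : ℕ), 2 ≤ n ∧ Nonempty (G ≃* PSp n F)

/-- `G` is isomorphic to `PSU(n,K)` for a finite field `K` with an automorphism `star` of order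
two and some `n ≥ 3`, where `n = 3` and `|K| = 4` is excluded. -/
def IsUnitary (G : Type) [Group G] : Prop :=
  ∃ (K : Type) (_ : Field K) (_ : Finite K) (_ : StarRing K) (n : ℕ),
    (∃ x : K, star x ≠ x) ∧ 3 ≤ n ∧ ¬ (n = 3 ∧ Nat.card K = 4) ∧ Nonempty (G ≃* PSU n K)

/-- `G` is isomorphic to `PΩ(V,Q)` for a quadratic form `Q` with nondegenerate polar form on a
vector space `V` of finite dimension at least `7` over a finite field. -/
def IsOrthogonal (G : Type) [Group G] : Prop :=
  ∃ (F V : Type) (_ : Field F) (_ : Finite F) (_ : AddCommGroup V) (_ : Module F V)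
    (_ : FiniteDimensional F V) (Q : QuadraticForm F V),
    (∀ u : V, (∀ v : V, QuadraticMap.polar Q u v = 0) → u = 0) ∧ 7 ≤ Module.finrank F V ∧
    Nonempty (G ≃* POmega Q)

/-- `G` is a classical group: linear, symplectic, unitary or orthogonal. -/
def IsClassical (G : Type) [Group G] : Prop :=
  IsLinear G ∨ IsSymplectic G ∨ IsUnitary G ∨ IsOrthogonal G

theorem result (G : Type) [Group G] (hG : IsClassical G) (d : ℕ)
    (hd : IsLeast {m : ℕ | 0 < m ∧ ∃ r : ℕ, ∀ x y : G,
      (fun z : G => z⁻¹ * y⁻¹ * z * y)^[r] x =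
        (fun z : G => z⁻¹ * y⁻¹ * z * y)^[r + m] x} d) :
    Monoid.exponent G ∣ d := by
  refine Pool.Agent.Eng.pd_final ?_ d hd
  rcases hG with ⟨F, _, _, n, hn, ⟨e⟩⟩ | ⟨F, _, _, n, hn, ⟨e⟩⟩ |
    ⟨K, _, _, _, n, hstar, hn, hn4, ⟨e⟩⟩ | ⟨F, V, _, _, _, _, _, Q, hQ, hdim, ⟨e⟩⟩
  · rw [Monoid.exponent_eq_of_mulEquiv e]
    exact pd_equiv e _ (Pool.Agent.Eng.mainSl F n hn)
  · rw [Monoid.exponent_eq_of_mulEquiv e]
    exact pd_equiv e _ (Pool.Agent.Eng.mainSp F n hn)
  · rw [Monoid.exponent_eq_of_mulEquiv e]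
    exact pd_equiv e _ (Pool.Agent.Eng.mainSu K n hstar hn hn4)
  · obtain ⟨e'⟩ := nonempty_equiv Q
    rw [Monoid.exponent_eq_of_mulEquiv (e.trans e')]
    exact pd_equiv (e.trans e') _ (Pool.Agent.Eng.mainOm F V Q hQ hdim)

end Pool.Agent.Results.MP_da8eb3_al.ClassicalGroups
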